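import Pool.Agent.helper64.LP.Lang
import Pool.Agent.helper66.Brouwer

/-!
# Module A: two paths outside a disk with interlacing end points on its boundary meet
-/

set_option autoImplicit false

namespace Pool.Agent.helper64.LP

open Set unitInterval

/-- Maehara's lemma: a left-right path and a bottom-top path in a square meet. -/
theorem square_lemma {A B : Set ℂ} (hA : ∀ z ∈ A, |z.re| ≤ 2 ∧ |z.im| ≤ 2)
    (hB : ∀ z ∈ B, |z.re| ≤ 2 ∧ |z.im| ≤ 2) {p p' q q' : ℂ} (hp : p.re = -2) (hp' : p'.re = 2)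
    (hq : q.im = -2) (hq' : q'.im = 2) (jA : JoinedIn A p p') (jB : JoinedIn B q q') :
    (A ∩ B).Nonempty := by
  by_contra hne
  obtain ⟨γ, hγ⟩ := jA
  obtain ⟨η, hη⟩ := jB
  have hu : ∀ s : ℝ, γ.extend s ∈ A := fun s => by
    unfold Path.extend
    exact hγ _
  have hv : ∀ t : ℝ, η.extend t ∈ B := fun t => by
    unfold Path.extend
    exact hη _
  have huc : Continuous γ.extend := γ.continuous_extend
  have hvc : Continuous η.extend := η.continuous_extend
  set X : ℝ → ℝ → ℝ := fun s t => (η.extend t).re - (γ.extend s).re with hX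
  set Y : ℝ → ℝ → ℝ := fun s t => (γ.extend s).im - (η.extend t).im with hY
  set N : ℝ → ℝ → ℝ := fun s t => max |X s t| |Y s t| with hN
  have hNpos : ∀ s t, 0 < N s t := by
    intro s t
    have h1 : 0 ≤ N s t := le_trans (abs_nonneg _) (le_max_left _ _)
    rcases h1.lt_or_eq with h | h
    · exact h
    · exfalso
      have h2 : |X s t| ≤ 0 := by rw [h]; exact le_max_left _ _
      have h3 : |Y s t| ≤ 0 := by rw [h]; exact le_max_right _ _
      have h4 : X s t = 0 := abs_eq_zero.mp (le_antisymm h2 (abs_nonneg _))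
      have h5 : Y s t = 0 := abs_eq_zero.mp (le_antisymm h3 (abs_nonneg _))
      apply hne
      refine ⟨γ.extend s, hu s, ?_⟩
      have : γ.extend s = η.extend t := by
        apply Complex.ext
        · simp only [hX] at h4; linarith
        · simp only [hY] at h5; linarith
      rw [this]
      exact hv t
  have hXc : Continuous fun x : Fin 2 → ℝ => X (x 0) (x 1) := by
    simp only [hX]
    exact (Complex.continuous_re.comp (hvc.comp (continuous_apply 1))).sub
      (Complex.continuous_re.comp (huc.comp (continuous_apply 0)))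
  have hYc : Continuous fun x : Fin 2 → ℝ => Y (x 0) (x 1) := by
    simp only [hY]
    exact (Complex.continuous_im.comp (huc.comp (continuous_apply 0))).sub
      (Complex.continuous_im.comp (hvc.comp (continuous_apply 1)))
  have hNc : Continuous fun x : Fin 2 → ℝ => N (x 0) (x 1) := by
    simp only [hN]
    exact hXc.abs.max hYc.abs
  have hXN : ∀ s t, |X s t / N s t| ≤ 1 := by
    intro s t
    rw [abs_div, abs_of_pos (hNpos s t), div_le_one (hNpos s t)]
    exact le_max_left _ _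
  have hYN : ∀ s t, |Y s t / N s t| ≤ 1 := by
    intro s t
    rw [abs_div, abs_of_pos (hNpos s t), div_le_one (hNpos s t)]
    exact le_max_right _ _
  obtain ⟨x, hx, hfx⟩ := Pool.Agent.helper66.Brouwer.exists_fixed_box (ι := Fin 2)
    (fun _ => 0) (fun _ => 1) (fun _ => zero_le_one)
    (fun x => ![(1 + X (x 0) (x 1) / N (x 0) (x 1)) / 2, (1 + Y (x 0) (x 1) / N (x 0) (x 1)) / 2])
    (by
      apply Continuous.continuousOn
      refine continuous_pi fun i => ?_
      fin_cases i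
      · exact (continuous_const.add (hXc.div hNc fun x => (hNpos _ _).ne')).div_const _
      · exact (continuous_const.add (hYc.div hNc fun x => (hNpos _ _).ne')).div_const _)
    (by
      intro x _
      have h1 := abs_le.mp (hXN (x 0) (x 1))
      have h2 := abs_le.mp (hYN (x 0) (x 1))
      constructor
      · intro i
        fin_cases i
        · show (0 : ℝ) ≤ (1 + X (x 0) (x 1) / N (x 0) (x 1)) / 2
          linarith
        · show (0 : ℝ) ≤ (1 + Y (x 0) (x 1) / N (x 0) (x 1)) / 2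
          linarith
      · intro i
        fin_cases i
        · show (1 + X (x 0) (x 1) / N (x 0) (x 1)) / 2 ≤ (1 : ℝ)
          linarith
        · show (1 + Y (x 0) (x 1) / N (x 0) (x 1)) / 2 ≤ (1 : ℝ)
          linarith)
  have e0 : (1 + X (x 0) (x 1) / N (x 0) (x 1)) / 2 = x 0 := congrFun hfx 0
  have e1 : (1 + Y (x 0) (x 1) / N (x 0) (x 1)) / 2 = x 1 := congrFun hfx 1
  set s := x 0 with hs
  set t := x 1 with ht
  have hNp := hNpos s t
  have hmax : N s t = |X s t| ∨ N s t = |Y s t| := by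
    simp only [hN]
    rcases le_total |X s t| |Y s t| with h | h
    · right; exact max_eq_right h
    · left; exact max_eq_left h
  have hAu := hA _ (hu s)
  have hBv := hB _ (hv t)
  rcases hmax with h | h
  · rcases abs_choice (X s t) with h' | h'
    · rw [h'] at h
      have h2 : X s t / N s t = 1 := by rw [← h, div_self hNp.ne']
      rw [h2] at e0
      have h3 : s = 1 := by linarith
      have h4 : γ.extend s = p' := by rw [h3]; exact γ.extend_one
      have h5 : X s t = (η.extend t).re - 2 := by simp only [hX]; rw [h4, hp']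
      have h6 := (abs_le.mp hBv.1).2
      linarith
    · rw [h'] at h
      have h2 : X s t / N s t = -1 := by rw [h, div_neg, div_self]; linarith
      rw [h2] at e0
      have h3 : s = 0 := by linarith
      have h4 : γ.extend s = p := by rw [h3]; exact γ.extend_zero
      have h5 : X s t = (η.extend t).re - (-2) := by simp only [hX]; rw [h4, hp]
      have h6 := (abs_le.mp hBv.1).1
      linarith
  · rcases abs_choice (Y s t) with h' | h'
    · rw [h'] at h
      have h2 : Y s t / N s t = 1 := by rw [← h, div_self hNp.ne']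
      rw [h2] at e1
      have h3 : t = 1 := by linarith
      have h4 : η.extend t = q' := by rw [h3]; exact η.extend_one
      have h5 : Y s t = (γ.extend s).im - 2 := by simp only [hY]; rw [h4, hq']
      have h6 := (abs_le.mp hAu.2).2
      linarith
    · rw [h'] at h
      have h2 : Y s t / N s t = -1 := by rw [h, div_neg, div_self]; linarith
      rw [h2] at e1
      have h3 : t = 0 := by linarith
      have h4 : η.extend t = q := by rw [h3]; exact η.extend_zero
      have h5 : Y s t = (γ.extend s).im - (-2) := by simp only [hY]; rw [h4, hq]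
      have h6 := (abs_le.mp hAu.2).1
      linarith

theorem norm_sq_eq (z : ℂ) : ‖z‖ ^ 2 = z.re ^ 2 + z.im ^ 2 := by
  rw [Complex.sq_norm, Complex.normSq_apply]
  ring

theorem abs_im_le_one {z : ℂ} (h : ‖z‖ ≤ 1) : |z.re| ≤ 1 ∧ |z.im| ≤ 1 :=
  ⟨(Complex.abs_re_le_norm z).trans h, (Complex.abs_im_le_norm z).trans h⟩

/-- a horizontal segment `[x, x']` at height `y` -/
theorem joined_horiz {S : Set ℂ} {P Q : ℂ} (him : P.im = Q.im)
    (h : ∀ z : ℂ, z.im = P.im → z.re ∈ uIcc P.re Q.re → z ∈ S) : JoinedIn S P Q := by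
  apply JoinedIn.of_segment_subset
  rintro z ⟨a, b, ha, hb, hab, rfl⟩
  have hre : (a • P + b • Q).re = a * P.re + b * Q.re := by simp
  have him' : (a • P + b • Q).im = a * P.im + b * Q.im := by simp
  apply h
  · rw [him', ← him, ← add_mul, hab, one_mul]
  · rw [hre, ← segment_eq_uIcc]
    exact ⟨a, b, ha, hb, hab, by simp⟩

/-- a vertical segment -/
theorem joined_vert {S : Set ℂ} {P Q : ℂ} (hre : P.re = Q.re)
    (h : ∀ z : ℂ, z.re = P.re → z.im ∈ uIcc P.im Q.im → z ∈ S) : JoinedIn S P Q := by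
  apply JoinedIn.of_segment_subset
  rintro z ⟨a, b, ha, hb, hab, rfl⟩
  have hre' : (a • P + b • Q).re = a * P.re + b * Q.re := by simp
  have him' : (a • P + b • Q).im = a * P.im + b * Q.im := by simp
  apply h
  · rw [hre', ← hre, ← add_mul, hab, one_mul]
  · rw [him', ← segment_eq_uIcc]
    exact ⟨a, b, ha, hb, hab, by simp⟩

/-- leave the unit disk to the left -/
theorem leg_left {P : ℂ} (hn : ‖P‖ = 1) (hP : P.re < 0) : ∃ (q : ℂ) (B : Set ℂ), q.re = -2 ∧
    JoinedIn B P q ∧ ∀ z ∈ B, |z.re| ≤ 2 ∧ |z.im| ≤ 2 ∧ z.im = P.im ∧ (‖z‖ ≤ 1 → z = P) := by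
  have hb := abs_im_le_one hn.le
  have h1 := abs_le.mp hb.1
  have h2 := abs_le.mp hb.2
  refine ⟨⟨-2, P.im⟩, {z | z.im = P.im ∧ -2 ≤ z.re ∧ z.re ≤ P.re}, rfl, ?_, ?_⟩
  · refine joined_horiz (P := P) (Q := ⟨-2, P.im⟩) rfl ?_
    intro z hz1 hz2
    rw [uIcc_of_ge (by show (-2 : ℝ) ≤ P.re; linarith)] at hz2
    exact ⟨hz1, hz2.1, hz2.2⟩
  · rintro z ⟨hz1, hz2, hz3⟩
    refine ⟨abs_le.mpr ⟨hz2, by linarith⟩, ?_, hz1, fun hz => ?_⟩
    · rw [hz1]; linarith [hb.2]
    · have h3 := norm_sq_eq z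
      have h4 := norm_sq_eq P
      have h5 : ‖z‖ ^ 2 ≤ 1 := by nlinarith [norm_nonneg z]
      rw [hn] at h4
      rw [hz1] at h3
      have h6 : z.re ^ 2 ≤ P.re ^ 2 := by linarith
      have h7 : z.re = P.re := by nlinarith
      exact Complex.ext h7 hz1

/-- leave the unit disk to the right -/
theorem leg_right {P : ℂ} (hn : ‖P‖ = 1) (hP : 0 < P.re) : ∃ (q : ℂ) (B : Set ℂ), q.re = 2 ∧
    JoinedIn B P q ∧ ∀ z ∈ B, |z.re| ≤ 2 ∧ |z.im| ≤ 2 ∧ z.im = P.im ∧ (‖z‖ ≤ 1 → z = P) := by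
  have hb := abs_im_le_one hn.le
  have h1 := abs_le.mp hb.1
  have h2 := abs_le.mp hb.2
  refine ⟨⟨2, P.im⟩, {z | z.im = P.im ∧ P.re ≤ z.re ∧ z.re ≤ 2}, rfl, ?_, ?_⟩
  · refine joined_horiz (P := P) (Q := ⟨2, P.im⟩) rfl ?_
    intro z hz1 hz2
    rw [uIcc_of_le (by show P.re ≤ 2; linarith)] at hz2
    exact ⟨hz1, hz2.1, hz2.2⟩
  · rintro z ⟨hz1, hz2, hz3⟩
    refine ⟨abs_le.mpr ⟨by linarith, hz3⟩, ?_, hz1, fun hz => ?_⟩
    · rw [hz1]; linarith [hb.2]
    · have h3 := norm_sq_eq z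
      have h4 := norm_sq_eq P
      have h5 : ‖z‖ ^ 2 ≤ 1 := by nlinarith [norm_nonneg z]
      rw [hn] at h4
      rw [hz1] at h3
      have h6 : z.re ^ 2 ≤ P.re ^ 2 := by linarith
      have h7 : z.re = P.re := by nlinarith
      exact Complex.ext h7 hz1

/-- leave the unit disk upwards -/
theorem leg_up {P : ℂ} (hn : ‖P‖ = 1) : ∃ (q : ℂ) (B : Set ℂ), q.im = 2 ∧ JoinedIn B P q ∧
    ∀ z ∈ B, |z.re| ≤ 2 ∧ |z.im| ≤ 2 ∧ P.im ≤ z.im ∧ (‖z‖ ≤ 1 → z = P) := by
  have hb := abs_im_le_one hn.le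
  have h1 := abs_le.mp hb.1
  have h2 := abs_le.mp hb.2
  have key : ∀ z : ℂ, z.im = P.im → P.re ^ 2 ≤ z.re ^ 2 → 0 ≤ P.re * z.re → ‖z‖ ≤ 1 → z = P := by
    intro z hz1 hz2 hz3 hz
    have h3 := norm_sq_eq z
    have h4 := norm_sq_eq P
    have h5 : ‖z‖ ^ 2 ≤ 1 := by nlinarith [norm_nonneg z]
    rw [hn] at h4
    rw [hz1] at h3
    have h6 : z.re ^ 2 = P.re ^ 2 := by linarith
    have h8 : z.re = P.re := by
      rcases sq_eq_sq_iff_eq_or_eq_neg.mp h6 with h | h
      · exact h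
      · rw [h] at hz3
        have h9 : P.re ^ 2 ≤ 0 := by nlinarith
        have h10 : P.re = 0 := by
          have := le_antisymm h9 (sq_nonneg _)
          exact pow_eq_zero_iff (two_ne_zero) |>.mp this
        rw [h, h10, neg_zero]
    exact Complex.ext (by linarith) hz1
  rcases le_total 0 P.re with hP | hP
  · refine ⟨⟨2, 2⟩, {z | (z.im = P.im ∧ P.re ≤ z.re ∧ z.re ≤ 2) ∨
      (z.re = 2 ∧ P.im ≤ z.im ∧ z.im ≤ 2)}, rfl, ?_, ?_⟩
    · refine (joined_horiz (P := P) (Q := ⟨2, P.im⟩) rfl ?_).trans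
        (joined_vert (P := ⟨2, P.im⟩) (Q := ⟨2, 2⟩) rfl ?_)
      · intro z hz1 hz2
        rw [uIcc_of_le (by show P.re ≤ 2; linarith)] at hz2
        exact Or.inl ⟨hz1, hz2.1, hz2.2⟩
      · intro z hz1 hz2
        rw [uIcc_of_le (by show P.im ≤ 2; linarith)] at hz2
        exact Or.inr ⟨hz1, hz2.1, hz2.2⟩
    · rintro z (⟨hz1, hz2, hz3⟩ | ⟨hz1, hz2, hz3⟩)
      · refine ⟨abs_le.mpr ⟨by linarith, hz3⟩, by rw [hz1]; linarith [hb.2], hz1.ge, ?_⟩
        exact key z hz1 (by nlinarith) (by nlinarith)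
      · refine ⟨by rw [hz1]; norm_num, abs_le.mpr ⟨by linarith, hz3⟩, hz2, fun hz => ?_⟩
        have := (abs_im_le_one hz).1
        rw [hz1] at this
        norm_num at this
  · refine ⟨⟨-2, 2⟩, {z | (z.im = P.im ∧ -2 ≤ z.re ∧ z.re ≤ P.re) ∨
      (z.re = -2 ∧ P.im ≤ z.im ∧ z.im ≤ 2)}, rfl, ?_, ?_⟩
    · refine (joined_horiz (P := P) (Q := ⟨-2, P.im⟩) rfl ?_).trans
        (joined_vert (P := ⟨-2, P.im⟩) (Q := ⟨-2, 2⟩) rfl ?_)
      · intro z hz1 hz2
        rw [uIcc_of_ge (by show (-2 : ℝ) ≤ P.re; linarith)] at hz2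
        exact Or.inl ⟨hz1, hz2.1, hz2.2⟩
      · intro z hz1 hz2
        rw [uIcc_of_le (by show P.im ≤ 2; linarith)] at hz2
        exact Or.inr ⟨hz1, hz2.1, hz2.2⟩
    · rintro z (⟨hz1, hz2, hz3⟩ | ⟨hz1, hz2, hz3⟩)
      · refine ⟨abs_le.mpr ⟨hz2, by linarith⟩, by rw [hz1]; linarith [hb.2], hz1.ge, ?_⟩
        exact key z hz1 (by nlinarith) (by nlinarith)
      · refine ⟨by rw [hz1]; norm_num, abs_le.mpr ⟨by linarith, hz3⟩, hz2, fun hz => ?_⟩
        have := (abs_im_le_one hz).1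
        rw [hz1] at this
        norm_num at this

/-- leave the unit disk downwards -/
theorem leg_down {P : ℂ} (hn : ‖P‖ = 1) : ∃ (q : ℂ) (B : Set ℂ), q.im = -2 ∧ JoinedIn B P q ∧
    ∀ z ∈ B, |z.re| ≤ 2 ∧ |z.im| ≤ 2 ∧ z.im ≤ P.im ∧ (‖z‖ ≤ 1 → z = P) := by
  obtain ⟨q, B, hq, hj, hB⟩ := leg_up (P := (starRingEnd ℂ) P) (by rw [RCLike.norm_conj, hn])
  refine ⟨(starRingEnd ℂ) q, (starRingEnd ℂ) '' B, by rw [Complex.conj_im, hq], ?_, ?_⟩
  · have := hj.map Complex.continuous_conj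
    rwa [Complex.conj_conj] at this
  · rintro _ ⟨z, hz, rfl⟩
    obtain ⟨h1, h2, h3, h4⟩ := hB z hz
    refine ⟨by rwa [Complex.conj_re], by rwa [Complex.conj_im, abs_neg], ?_, fun h => ?_⟩
    · rw [Complex.conj_im] at h3 ⊢
      linarith
    · rw [h4 (by rwa [RCLike.norm_conj] at h), Complex.conj_conj]

/-- two paths in the closed unit disk whose end points interlace on the circle meet -/
theorem disk_crossing {U W : Set ℂ} (hU : ∀ z ∈ U, ‖z‖ ≤ 1) (hW : ∀ z ∈ W, ‖z‖ ≤ 1)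
    {P₁ P₂ P₃ P₄ : ℂ} (n1 : ‖P₁‖ = 1) (n2 : ‖P₂‖ = 1) (n3 : ‖P₃‖ = 1) (n4 : ‖P₄‖ = 1)
    (r1 : P₁.re < 0) (r3 : 0 < P₃.re) (h13 : P₁.im = P₃.im) (h2 : P₂.im < P₁.im)
    (h4 : P₁.im < P₄.im) (j1 : JoinedIn U P₁ P₃) (j2 : JoinedIn W P₂ P₄) :
    (U ∩ W).Nonempty := by
  obtain ⟨qL, L, hqL, jL, hL⟩ := leg_left n1 r1
  obtain ⟨qR, R, hqR, jR, hR⟩ := leg_right n3 r3
  obtain ⟨qD, D, hqD, jD, hD⟩ := leg_down n2
  obtain ⟨qT, T, hqT, jT, hT⟩ := leg_up n4
  have bd : ∀ z : ℂ, ‖z‖ ≤ 1 → |z.re| ≤ 2 ∧ |z.im| ≤ 2 := fun z hz => by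
    have := abs_im_le_one hz
    exact ⟨by linarith [this.1], by linarith [this.2]⟩
  obtain ⟨z, hzA, hzB⟩ := square_lemma (A := L ∪ (U ∪ R)) (B := D ∪ (W ∪ T))
    (by
      rintro z (hz | hz | hz)
      · exact ⟨(hL z hz).1, (hL z hz).2.1⟩
      · exact bd z (hU z hz)
      · exact ⟨(hR z hz).1, (hR z hz).2.1⟩)
    (by
      rintro z (hz | hz | hz)
      · exact ⟨(hD z hz).1, (hD z hz).2.1⟩
      · exact bd z (hW z hz)
      · exact ⟨(hT z hz).1, (hT z hz).2.1⟩)
    hqL hqR hqD hqT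
    ((jL.symm.mono (subset_union_left)).trans
      ((j1.mono (subset_union_left.trans subset_union_right)).trans
        (jR.mono (subset_union_right.trans subset_union_right))))
    ((jD.symm.mono (subset_union_left)).trans
      ((j2.mono (subset_union_left.trans subset_union_right)).trans
        (jT.mono (subset_union_right.trans subset_union_right))))
  rcases hzA with hz | hz | hz <;> rcases hzB with hz' | hz' | hz'
  · have := (hL z hz).2.2.1; have := (hD z hz').2.2.1; linarith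
  · have := (hL z hz).2.2.2 (hW z hz'); subst this; exact ⟨z, j1.source_mem, hz'⟩
  · have := (hL z hz).2.2.1; have := (hT z hz').2.2.1; linarith
  · have := (hD z hz').2.2.2 (hU z hz); subst this; exact ⟨z, hz, j2.source_mem⟩
  · exact ⟨z, hz, hz'⟩
  · have := (hT z hz').2.2.2 (hU z hz); subst this; exact ⟨z, hz, j2.target_mem⟩
  · have := (hR z hz).2.2.1; have := (hD z hz').2.2.1; linarith
  · have := (hR z hz).2.2.2 (hW z hz'); subst this; exact ⟨z, j1.target_mem, hz'⟩
  · have := (hR z hz).2.2.1; have := (hT z hz').2.2.1; linarith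

theorem sin_half_mul_pos {u : ℝ} (h0 : u ≠ 0) (h1 : -(2 * Real.pi) < u) (h2 : u < 2 * Real.pi) :
    0 < Real.sin (u / 2) * u := by
  rcases lt_or_gt_of_ne h0 with h | h
  · have := Real.sin_neg_of_neg_of_neg_pi_lt (x := u / 2) (by linarith) (by linarith)
    exact mul_pos_of_neg_of_neg this h
  · have := Real.sin_pos_of_pos_of_lt_pi (x := u / 2) (by linarith) (by linarith)
    exact mul_pos this h

/-- **Module A** -/
theorem crossing (h : ℂ) (δ : ℝ) (hδ : 0 < δ) (a b c d : ℝ)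
    (ha : a ∈ Set.Ioc (-Real.pi) Real.pi) (hb : b ∈ Set.Ioc (-Real.pi) Real.pi)
    (hc : c ∈ Set.Ioc (-Real.pi) Real.pi) (hd : d ∈ Set.Ioc (-Real.pi) Real.pi)
    (hs : Sep a b c d) (F₁ F₂ : Set ℂ)
    (h1 : ∀ z ∈ F₁, δ ≤ ‖z - h‖) (h2 : ∀ z ∈ F₂, δ ≤ ‖z - h‖)
    (j1 : JoinedIn F₁ (h + δ * Complex.exp (a * Complex.I)) (h + δ * Complex.exp (c * Complex.I)))
    (j2 : JoinedIn F₂ (h + δ * Complex.exp (b * Complex.I)) (h + δ * Complex.exp (d * Complex.I))) :
    (F₁ ∩ F₂).Nonempty := by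
  set ρ : ℝ := (a + c) / 2 - Real.pi / 2 with hρ
  set φ : ℂ → ℂ := fun z => Complex.exp (((-ρ : ℝ) : ℂ) * Complex.I) *
    (δ / (starRingEnd ℂ) (z - h)) with hφ
  have hne : ∀ z : ℂ, δ ≤ ‖z - h‖ → (starRingEnd ℂ) (z - h) ≠ 0 := by
    intro z hz h0
    have h3 : ‖(starRingEnd ℂ) (z - h)‖ = 0 := by rw [h0, norm_zero]
    rw [RCLike.norm_conj] at h3
    linarith
  have hcont : ∀ F : Set ℂ, (∀ z ∈ F, δ ≤ ‖z - h‖) → ContinuousOn φ F := by
    intro F hF
    refine continuousOn_const.mul (continuousOn_const.div ?_ fun z hz => hne z (hF z hz))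
    exact (Complex.continuous_conj.comp (continuous_id.sub continuous_const)).continuousOn
  have hval : ∀ θ : ℝ, φ (h + δ * Complex.exp (θ * Complex.I)) =
      Complex.exp (((θ - ρ : ℝ) : ℂ) * Complex.I) := by
    intro θ
    have hδ' : (δ : ℂ) ≠ 0 := by exact_mod_cast hδ.ne'
    have h3 : (starRingEnd ℂ) (h + δ * Complex.exp (θ * Complex.I) - h) =
        δ * Complex.exp (-(θ * Complex.I)) := by
      rw [add_sub_cancel_left, map_mul, Complex.conj_ofReal, ← Complex.exp_conj, map_mul,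
        Complex.conj_ofReal, Complex.conj_I]
      congr 2
      ring
    simp only [hφ]
    rw [h3, Complex.exp_neg]
    have h4 : (δ : ℂ) / (δ * (Complex.exp (θ * Complex.I))⁻¹) = Complex.exp (θ * Complex.I) := by
      field_simp
    rw [h4, ← Complex.exp_add]
    congr 1
    push_cast
    ring
  have hnorm : ∀ z : ℂ, δ ≤ ‖z - h‖ → ‖φ z‖ ≤ 1 := by
    intro z hz
    simp only [hφ]
    rw [norm_mul, Complex.norm_exp_ofReal_mul_I, one_mul, norm_div, RCLike.norm_conj,
      Complex.norm_real, Real.norm_of_nonneg hδ.le]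
    exact div_le_one_of_le₀ hz (norm_nonneg _)
  have hinj : ∀ z w : ℂ, δ ≤ ‖z - h‖ → δ ≤ ‖w - h‖ → φ z = φ w → z = w := by
    intro z w hz hw hzw
    simp only [hφ] at hzw
    have h3 := mul_left_cancel₀ (Complex.exp_ne_zero _) hzw
    have hδ' : (δ : ℂ) ≠ 0 := by exact_mod_cast hδ.ne'
    rw [div_eq_div_iff (hne z hz) (hne w hw)] at h3
    have h4 := mul_left_cancel₀ hδ' h3
    have h5 := (starRingEnd ℂ).injective h4
    exact (sub_left_inj.mp h5).symm
  have k1 : JoinedIn (φ '' F₁) (Complex.exp (((a - ρ : ℝ) : ℂ) * Complex.I))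
      (Complex.exp (((c - ρ : ℝ) : ℂ) * Complex.I)) := by
    have := j1.map_continuousOn (hcont F₁ h1)
    rwa [hval, hval] at this
  have k2 : JoinedIn (φ '' F₂) (Complex.exp (((b - ρ : ℝ) : ℂ) * Complex.I))
      (Complex.exp (((d - ρ : ℝ) : ℂ) * Complex.I)) := by
    have := j2.map_continuousOn (hcont F₂ h2)
    rwa [hval, hval] at this
  have hU : ∀ z ∈ φ '' F₁, ‖z‖ ≤ 1 := by
    rintro _ ⟨z, hz, rfl⟩
    exact hnorm z (h1 z hz)
  have hW : ∀ z ∈ φ '' F₂, ‖z‖ ≤ 1 := by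
    rintro _ ⟨z, hz, rfl⟩
    exact hnorm z (h2 z hz)
  suffices hmeet : (φ '' F₁ ∩ φ '' F₂).Nonempty by
    obtain ⟨_, ⟨z, hz, rfl⟩, ⟨w, hw, hzw⟩⟩ := hmeet
    have := hinj w z (h2 w hw) (h1 z hz) hzw
    subst this
    exact ⟨w, hz, hw⟩
  -- signs
  unfold Sep at hs
  have hab : a - b ≠ 0 := by
    intro h0; rw [h0] at hs; simp at hs
  have hbc : b - c ≠ 0 := by
    intro h0; rw [h0] at hs; simp at hs
  have hcd : c - d ≠ 0 := by
    intro h0; rw [h0] at hs; simp at hs
  have hda : d - a ≠ 0 := by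
    intro h0; rw [h0] at hs; simp at hs
  have hsin : ∀ θ : ℝ, Real.sin (θ - ρ) - Real.sin (a - ρ) =
      2 * Real.sin ((θ - c) / 2) * Real.sin ((a - θ) / 2) := by
    intro θ
    rw [Real.sin_sub_sin]
    have e1 : (θ - ρ - (a - ρ)) / 2 = -((a - θ) / 2) := by ring
    have e2 : (θ - ρ + (a - ρ)) / 2 = (θ - c) / 2 + Real.pi / 2 := by rw [hρ]; ring
    rw [e1, e2, Real.sin_neg, Real.cos_add_pi_div_two]
    ring
  have hb' : 0 < (Real.sin (b - ρ) - Real.sin (a - ρ)) * ((b - c) * (a - b)) := by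
    rw [hsin]
    have s1 := sin_half_mul_pos hbc (by linarith [hb.1, hc.2]) (by linarith [hb.2, hc.1])
    have s2 := sin_half_mul_pos hab (by linarith [ha.1, hb.2]) (by linarith [ha.2, hb.1])
    have := mul_pos (mul_pos (by norm_num : (0 : ℝ) < 2) s1) s2
    linarith
  have hd' : 0 < (Real.sin (d - ρ) - Real.sin (a - ρ)) * ((c - d) * (d - a)) := by
    rw [hsin]
    have hcd' : d - c ≠ 0 := fun h0 => hcd (by linarith)
    have hda' : a - d ≠ 0 := fun h0 => hda (by linarith)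
    have s1 := sin_half_mul_pos hcd' (by linarith [hd.1, hc.2]) (by linarith [hd.2, hc.1])
    have s2 := sin_half_mul_pos hda' (by linarith [ha.1, hd.2]) (by linarith [ha.2, hd.1])
    have := mul_pos (mul_pos (by norm_num : (0 : ℝ) < 2) s1) s2
    nlinarith [this]
  have hac : a ≠ c := by
    intro h0
    rw [h0] at hs
    have : (c - b) * (b - c) * (c - d) * (d - c) = ((b - c) * (c - d)) ^ 2 := by ring
    rw [this] at hs
    exact absurd (sq_nonneg _) (not_le.mpr hs)
  have hsinc : Real.sin (c - ρ) = Real.sin (a - ρ) := by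
    have := hsin c
    rw [sub_self, zero_div, Real.sin_zero, mul_zero, zero_mul] at this
    linarith
  have hre : ∀ θ : ℝ, (Complex.exp (((θ - ρ : ℝ) : ℂ) * Complex.I)).re = Real.cos (θ - ρ) :=
    fun θ => Complex.exp_ofReal_mul_I_re _
  have him : ∀ θ : ℝ, (Complex.exp (((θ - ρ : ℝ) : ℂ) * Complex.I)).im = Real.sin (θ - ρ) :=
    fun θ => Complex.exp_ofReal_mul_I_im _
  have hnm : ∀ θ : ℝ, ‖Complex.exp (((θ - ρ : ℝ) : ℂ) * Complex.I)‖ = 1 :=
    fun θ => Complex.norm_exp_ofReal_mul_I _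
  have hcosa : Real.cos (a - ρ) = -Real.sin ((a - c) / 2) := by
    have : a - ρ = (a - c) / 2 + Real.pi / 2 := by rw [hρ]; ring
    rw [this, Real.cos_add_pi_div_two]
  have hcosc : Real.cos (c - ρ) = Real.sin ((a - c) / 2) := by
    have : c - ρ = Real.pi / 2 - (a - c) / 2 := by rw [hρ]; ring
    rw [this, Real.cos_pi_div_two_sub]
  -- the points `b`, `d` are on different sides of the chord
  have hopp : (Real.sin (b - ρ) < Real.sin (a - ρ) ∧ Real.sin (a - ρ) < Real.sin (d - ρ)) ∨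
      (Real.sin (d - ρ) < Real.sin (a - ρ) ∧ Real.sin (a - ρ) < Real.sin (b - ρ)) := by
    set x := Real.sin (b - ρ) - Real.sin (a - ρ) with hx
    set y := Real.sin (d - ρ) - Real.sin (a - ρ) with hy
    have hxy : x * y < 0 := by
      by_contra hcon
      push Not at hcon
      have h3 : 0 < (x * y) * (((a - b) * (b - c) * (c - d) * (d - a))) := by
        have := mul_pos hb' hd'
        nlinarith [this]
      have h4 : (x * y) * (((a - b) * (b - c) * (c - d) * (d - a))) ≤ 0 :=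
        mul_nonpos_of_nonneg_of_nonpos hcon hs.le
      linarith
    rcases mul_neg_iff.mp hxy with ⟨h3, h4⟩ | ⟨h3, h4⟩
    · right; constructor <;> linarith
    · left; constructor <;> linarith
  rcases lt_or_gt_of_ne hac with hlt | hgt
  · have hsn : Real.sin ((a - c) / 2) < 0 := Real.sin_neg_of_neg_of_neg_pi_lt (by linarith)
      (by linarith [ha.1, hc.2])
    rcases hopp with ⟨o1, o2⟩ | ⟨o1, o2⟩
    · exact disk_crossing hU hW (hnm c) (hnm b) (hnm a) (hnm d)
        (by rw [hre, hcosc]; exact hsn) (by rw [hre, hcosa]; linarith)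
        (by rw [him, him, hsinc]) (by rw [him, him, hsinc]; exact o1)
        (by rw [him, him, hsinc]; exact o2) k1.symm k2
    · exact disk_crossing hU hW (hnm c) (hnm d) (hnm a) (hnm b)
        (by rw [hre, hcosc]; exact hsn) (by rw [hre, hcosa]; linarith)
        (by rw [him, him, hsinc]) (by rw [him, him, hsinc]; exact o1)
        (by rw [him, him, hsinc]; exact o2) k1.symm k2.symm
  · have hsp : 0 < Real.sin ((a - c) / 2) := Real.sin_pos_of_pos_of_lt_pi (by linarith)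
      (by linarith [ha.2, hc.1])
    rcases hopp with ⟨o1, o2⟩ | ⟨o1, o2⟩
    · exact disk_crossing hU hW (hnm a) (hnm b) (hnm c) (hnm d)
        (by rw [hre, hcosa]; linarith) (by rw [hre, hcosc]; exact hsp)
        (by rw [him, him, hsinc]) (by rw [him, him]; exact o1)
        (by rw [him, him]; exact o2) k1 k2
    · exact disk_crossing hU hW (hnm a) (hnm d) (hnm c) (hnm b)
        (by rw [hre, hcosa]; linarith) (by rw [hre, hcosc]; exact hsp)
        (by rw [him, him, hsinc]) (by rw [him, him]; exact o1)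
        (by rw [him, him]; exact o2) k1 k2.symm

end Pool.Agent.helper64.LP
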