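import Pool.Agent.helper3.LP.A

/-!
# Module B: rotation at a vertex of a drawing
-/

set_option autoImplicit false

namespace Pool.Agent.helper64.LP

open Set unitInterval Filter Topology

/-- the two end points of an arc are joined in the arc -/
theorem IsArc.joined {A : Set ℂ} {p q : ℂ} (h : IsArc A p q) : JoinedIn A p q := by
  obtain ⟨γ, hc, -, h0, h1, hr⟩ := h
  exact ⟨⟨⟨γ, hc⟩, h0, h1⟩, fun t => by rw [← hr]; exact mem_range_self t⟩

theorem IsArc.compact {A : Set ℂ} {p q : ℂ} (h : IsArc A p q) : IsCompact A := by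
  obtain ⟨γ, hc, -, h0, h1, hr⟩ := h
  rw [← hr]
  exact isCompact_range hc

/-- the last point of an arc on a small circle around its first end point -/
theorem IsArc.last {A : Set ℂ} {p q : ℂ} (h : IsArc A p q) {δ : ℝ} (hδ : 0 < δ)
    (hq : δ < ‖q - p‖) : ∃ P : ℂ, ‖P - p‖ = δ ∧ P ∈ A ∧ JoinedIn ({z | δ ≤ ‖z - p‖} ∩ A) P q := by
  obtain ⟨γ, hc, -, h0, h1, hr⟩ := h
  have hf : Continuous fun t : unitInterval => ‖γ t - p‖ := (hc.sub continuous_const).norm
  set K : Set unitInterval := {t | ‖γ t - p‖ ≤ δ} with hK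
  have hKc : IsCompact K := (isClosed_le hf continuous_const).isCompact
  have hKn : K.Nonempty := ⟨0, by
    show ‖γ 0 - p‖ ≤ δ
    rw [h0, sub_self, norm_zero]
    exact hδ.le⟩
  obtain ⟨t₀, ht₀, hmax⟩ := hKc.exists_isGreatest hKn
  have hgt : ∀ t, t₀ < t → δ < ‖γ t - p‖ := by
    intro t ht
    by_contra hcon
    exact absurd (hmax (show t ∈ K from not_lt.mp hcon)) (not_le.mpr ht)
  have hEq : ‖γ t₀ - p‖ = δ := by
    have hle : t₀ ≤ 1 := le_one'
    have hivt := intermediate_value_Icc hle hf.continuousOn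
    have hmem : δ ∈ Icc ‖γ t₀ - p‖ ‖γ 1 - p‖ := ⟨ht₀, by rw [h1]; exact hq.le⟩
    obtain ⟨t, ht, hte⟩ := hivt hmem
    have h3 : t ≤ t₀ := hmax (show t ∈ K from hte.le)
    have h4 : t = t₀ := le_antisymm h3 ht.1
    rw [← h4]
    exact hte
  refine ⟨γ t₀, hEq, by rw [← hr]; exact mem_range_self _, ?_⟩
  have hcv : IsPathConnected (Icc (t₀ : ℝ) 1) :=
    (convex_Icc _ _).isPathConnected ⟨1, t₀.2.2, le_refl _⟩
  have hj : JoinedIn (Icc (t₀ : ℝ) 1) (t₀ : ℝ) 1 :=
    hcv.joinedIn _ ⟨le_refl _, t₀.2.2⟩ _ ⟨t₀.2.2, le_refl _⟩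
  have hj' := hj.map (f := fun s : ℝ => γ (projIcc 0 1 zero_le_one s)) (hc.comp continuous_projIcc)
  have e0 : γ (projIcc 0 1 zero_le_one (t₀ : ℝ)) = γ t₀ := by rw [projIcc_val]
  have e1 : γ (projIcc 0 1 zero_le_one (1 : ℝ)) = q := by
    rw [projIcc_right]
    exact h1
  rw [e0, e1] at hj'
  refine hj'.mono ?_
  rintro _ ⟨s, hs, rfl⟩
  refine ⟨?_, by rw [← hr]; exact mem_range_self _⟩
  have hs01 : s ∈ Icc (0 : ℝ) 1 := ⟨t₀.2.1.trans hs.1, hs.2⟩
  have hle : t₀ ≤ (projIcc 0 1 zero_le_one s : unitInterval) := by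
    rw [projIcc_of_mem _ hs01]
    exact hs.1
  show δ ≤ ‖γ (projIcc 0 1 zero_le_one s) - p‖
  rcases hle.eq_or_lt with h | h
  · rw [← h, hEq]
  · exact (hgt _ h).le

/-- the ends of a walk are joined in the union of the arcs of its edges -/
theorem walk_joined {V : Type} {G : SimpleGraph V} (D : Drawing G) {F : Set ℂ} {a c : V}
    (p : G.Walk a c) (ha : D.pos a ∈ F) (hp : ∀ e ∈ p.edges, D.arc e ⊆ F) :
    JoinedIn F (D.pos a) (D.pos c) := by
  induction p with
  | nil => exact JoinedIn.refl ha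
  | cons hadj p ih =>
    have h1 := (D.isArc _ _ hadj).joined
    have h2 : D.arc s(_, _) ⊆ F := hp _ (by rw [SimpleGraph.Walk.edges_cons]; exact List.mem_cons_self)
    exact (h1.mono h2).trans (ih (h2 h1.target_mem) fun e he => hp e (by
      rw [SimpleGraph.Walk.edges_cons]; exact List.mem_cons_of_mem _ he))

/-- a small disk around `h` -/
theorem exists_disk {V : Type} [Finite V] {G : SimpleGraph V} (D : Drawing G) (h : V) :
    ∃ δ : ℝ, 0 < δ ∧ (∀ u, u ≠ h → δ < ‖D.pos u - D.pos h‖) ∧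
      ∀ e ∈ G.edgeSet, h ∉ e → ∀ z ∈ D.arc e, δ ≤ ‖z - D.pos h‖ := by
  have hV : ∀ᶠ δ in 𝓝[>] (0 : ℝ), ∀ u, u ≠ h → δ < ‖D.pos u - D.pos h‖ := by
    rw [eventually_all]
    intro u
    by_cases hu : u = h
    · exact Eventually.of_forall fun δ hn => absurd hu hn
    · have hpos : 0 < ‖D.pos u - D.pos h‖ :=
        norm_pos_iff.mpr (sub_ne_zero.mpr fun h' => hu (D.pos_inj h'))
      have := Ioo_mem_nhdsGT hpos
      filter_upwards [this] with δ hδ _
      exact hδ.2
  have hE : ∀ᶠ δ in 𝓝[>] (0 : ℝ), ∀ e : Sym2 V, e ∈ G.edgeSet → h ∉ e →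
      ∀ z ∈ D.arc e, δ ≤ ‖z - D.pos h‖ := by
    rw [eventually_all]
    intro e
    by_cases he : e ∈ G.edgeSet ∧ h ∉ e
    · obtain ⟨he1, he2⟩ := he
      induction e using Sym2.ind with
      | _ u v =>
        have harc := D.isArc u v he1
        have hcpt := harc.compact
        have hnot : D.pos h ∉ D.arc s(u, v) := by
          intro hmem
          apply he2
          rw [Sym2.mem_iff]
          exact D.avoid u v h he1 hmem
        have hne : (D.arc s(u, v)).Nonempty := ⟨_, harc.joined.source_mem⟩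
        obtain ⟨z₀, hz₀, hmin⟩ := hcpt.exists_isMinOn hne
          (f := fun z => ‖z - D.pos h‖) (continuous_id.sub continuous_const).norm.continuousOn
        have hpos : 0 < ‖z₀ - D.pos h‖ :=
          norm_pos_iff.mpr (sub_ne_zero.mpr fun h' => hnot (h' ▸ hz₀))
        have := Ioo_mem_nhdsGT hpos
        filter_upwards [this] with δ hδ _ _ z hz
        exact hδ.2.le.trans (hmin hz)
    · exact Eventually.of_forall fun δ h1 h2 => absurd ⟨h1, h2⟩ he
  have hpos : ∀ᶠ δ in 𝓝[>] (0 : ℝ), 0 < δ := self_mem_nhdsWithin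
  obtain ⟨δ, h1, h2, h3⟩ := (hpos.and (hV.and hE)).exists
  exact ⟨δ, h1, h2, h3⟩

/-- **Module B** -/
theorem rotation {V : Type} [Finite V] {G : SimpleGraph V} (D : Drawing G) (h : V)
    (hstar : ∀ u v, G.Adj h u → G.Adj h v → u ≠ v → ¬ D.Cross s(h, u) s(h, v)) :
    ∃ θ : V → ℝ, (∀ u v, G.Adj h u → G.Adj h v → θ u = θ v → u = v) ∧
      ∀ (a b c d : V), G.Adj h a → G.Adj h b → G.Adj h c → G.Adj h d →
        ∀ (p : G.Walk a c) (q : G.Walk b d), h ∉ p.support → h ∉ q.support →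
        (∀ v ∈ p.support, v ∉ q.support) →
        (∀ e, e = s(h, a) ∨ e = s(h, c) ∨ e ∈ p.edges →
          ∀ f, f = s(h, b) ∨ f = s(h, d) ∨ f ∈ q.edges → ¬ D.Cross e f) →
        ¬ Sep (θ a) (θ b) (θ c) (θ d) := by
  classical
  obtain ⟨δ, hδ, hδV, hδE⟩ := exists_disk D h
  have hlast : ∀ u, G.Adj h u → ∃ P : ℂ, ‖P - D.pos h‖ = δ ∧ P ∈ D.arc s(h, u) ∧
      JoinedIn ({z | δ ≤ ‖z - D.pos h‖} ∩ D.arc s(h, u)) P (D.pos u) := by
    intro u hu
    exact (D.isArc h u hu).last hδ (hδV u hu.ne')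
  choose! P hP1 hP2 hP3 using hlast
  have hPeq : ∀ u, G.Adj h u → D.pos h + δ * Complex.exp
      ((Complex.arg (P u - D.pos h) : ℝ) * Complex.I) = P u := by
    intro u hu
    have := Complex.norm_mul_exp_arg_mul_I (P u - D.pos h)
    rw [hP1 u hu] at this
    rw [this]
    ring
  have hout : ∀ u v : V, ∀ e ∈ G.edgeSet, h ∉ e → D.arc e ⊆ {z | δ ≤ ‖z - D.pos h‖} :=
    fun _ _ e he hne z hz => hδE e he hne z hz
  refine ⟨fun u => Complex.arg (P u - D.pos h), ?_, ?_⟩
  · intro u v hu hv huv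
    by_contra hne
    have hPP : P u = P v := by
      rw [← hPeq u hu, ← hPeq v hv]
      simp only at huv
      rw [huv]
    apply hstar u v hu hv hne
    refine ⟨P u, ⟨hP2 u hu, hPP ▸ hP2 v hv⟩, ?_⟩
    rintro ⟨w, hw1, hw2, hw⟩
    rw [Sym2.mem_iff] at hw1 hw2
    have hwh : w = h := by
      rcases hw1 with h1 | h1
      · exact h1
      · rcases hw2 with h2 | h2
        · exact h2
        · exact absurd (h1.symm.trans h2) hne
    have h3 := hP1 u hu
    rw [hw, hwh, sub_self, norm_zero] at h3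
    exact absurd h3 hδ.ne
  · intro a b c d ha hb hc hd p q hp hq hpq hcr hsep
    -- the two connected sets
    have key : ∀ (a c : V) (p : G.Walk a c), G.Adj h a → G.Adj h c → h ∉ p.support →
        JoinedIn {z | δ ≤ ‖z - D.pos h‖ ∧ ∃ e, (e = s(h, a) ∨ e = s(h, c) ∨ e ∈ p.edges) ∧
          z ∈ D.arc e} (P a) (P c) := by
      intro a c p ha hc hp
      have j1 := hP3 a ha
      have j3 := (hP3 c hc).symm
      have j2 := walk_joined D (F := {z | δ ≤ ‖z - D.pos h‖ ∧ ∃ e, (e = s(h, a) ∨ e = s(h, c) ∨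
        e ∈ p.edges) ∧ z ∈ D.arc e}) p
        ⟨j1.target_mem.1, s(h, a), Or.inl rfl, j1.target_mem.2⟩ (by
          intro e he z hz
          refine ⟨hδE e (p.edges_subset_edgeSet he) ?_ z hz, e, Or.inr (Or.inr he), hz⟩
          intro hmem
          induction e using Sym2.ind with
          | _ u v =>
            rcases Sym2.mem_iff.mp hmem with h1 | h1
            · exact hp (h1 ▸ p.fst_mem_support_of_mem_edges he)
            · exact hp (h1 ▸ p.snd_mem_support_of_mem_edges he))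
      refine (j1.mono ?_).trans (j2.trans (j3.mono ?_))
      · rintro z ⟨h1, h2⟩
        exact ⟨h1, s(h, a), Or.inl rfl, h2⟩
      · rintro z ⟨h1, h2⟩
        exact ⟨h1, s(h, c), Or.inr (Or.inl rfl), h2⟩
    have j1 := key a c p ha hc hp
    have j2 := key b d q hb hd hq
    rw [← hPeq a ha, ← hPeq c hc] at j1
    rw [← hPeq b hb, ← hPeq d hd] at j2
    obtain ⟨z, ⟨hz1, e, he, hze⟩, ⟨-, f, hf, hzf⟩⟩ := crossing (D.pos h) δ hδ _ _ _ _
      (Complex.arg_mem_Ioc _) (Complex.arg_mem_Ioc _) (Complex.arg_mem_Ioc _)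
      (Complex.arg_mem_Ioc _) hsep _ _ (fun z hz => hz.1) (fun z hz => hz.1) j1 j2
    apply hcr e he f hf
    refine ⟨z, ⟨hze, hzf⟩, ?_⟩
    rintro ⟨w, hw1, hw2, hw⟩
    have hwh : w ≠ h := by
      intro h0
      rw [hw, h0, sub_self, norm_zero] at hz1
      linarith
    have mem : ∀ (a c : V) (p : G.Walk a c) (e : Sym2 V), (e = s(h, a) ∨ e = s(h, c) ∨
        e ∈ p.edges) → w ∈ e → w ∈ p.support := by
      intro a c p e he hw1
      rcases he with rfl | rfl | he
      · rcases Sym2.mem_iff.mp hw1 with h1 | h1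
        · exact absurd h1 hwh
        · exact h1 ▸ p.start_mem_support
      · rcases Sym2.mem_iff.mp hw1 with h1 | h1
        · exact absurd h1 hwh
        · exact h1 ▸ p.end_mem_support
      · induction e using Sym2.ind with
        | _ u v =>
          rcases Sym2.mem_iff.mp hw1 with h1 | h1
          · exact h1 ▸ p.fst_mem_support_of_mem_edges he
          · exact h1 ▸ p.snd_mem_support_of_mem_edges he
    exact hpq w (mem a c p e he hw1) (mem b d q f hf hw2)

end Pool.Agent.helper64.LP
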